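import Pool.Agent.J4H12.PZ.Stm

set_option autoImplicit false

open MeasureTheory Set Filter Topology Metric
open scoped Pointwise RealInnerProductSpace ENNReal

namespace Pool.Agent.J4H93.PZ

open Pool.Agent.H638.IB Pool.Agent.J4H12.PZ

/-- The odd kernel. -/
noncomputable def kk (z a : ℝ) : ℝ := a * |a| ^ (-z - 1)

theorem kk_eq (z a : ℝ) : (SignType.sign a : ℝ) * |a| ^ (-z) = kk z a := by
  unfold kk
  rcases eq_or_ne a 0 with rfl | ha
  · simp
  · have h : 0 < |a| := abs_pos.mpr ha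
    have h1 : |a| ^ (-z) = |a| ^ (-z - 1) * |a| := by
      rw [← Real.rpow_add_one h.ne']; ring_nf
    have h2 : (SignType.sign a : ℝ) * |a| = a := sign_mul_abs a
    rw [h1]
    calc (SignType.sign a : ℝ) * (|a| ^ (-z - 1) * |a|)
        = ((SignType.sign a : ℝ) * |a|) * |a| ^ (-z - 1) := by ring
      _ = a * |a| ^ (-z - 1) := by rw [h2]

theorem kk_mul (z c a : ℝ) : kk z (c * a) = kk z c * kk z a := by
  unfold kk
  rw [abs_mul, Real.mul_rpow (abs_nonneg _) (abs_nonneg _)]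
  ring

theorem kk_neg (z a : ℝ) : kk z (-a) = -kk z a := by
  unfold kk; rw [abs_neg]; ring

theorem abs_kk (z a : ℝ) (ha : a ≠ 0) : |kk z a| = |a| ^ (-z) := by
  unfold kk
  have h : 0 < |a| := abs_pos.mpr ha
  rw [abs_mul, abs_of_pos (Real.rpow_pos_of_pos h _), mul_comm, ← Real.rpow_add_one h.ne']
  ring_nf

theorem kk_one (a : ℝ) (ha : a ≠ 0) : kk 1 a = a⁻¹ := by
  unfold kk
  have h : 0 < |a| := abs_pos.mpr ha
  have h2 : (-1 - 1 : ℝ) = -((2 : ℕ) : ℝ) := by norm_num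
  rw [h2, Real.rpow_neg h.le, Real.rpow_natCast, sq_abs]
  field_simp

theorem measurable_kk (z : ℝ) : Measurable (kk z) := by
  unfold kk
  exact measurable_id.mul ((continuous_abs.measurable).pow_const _)

theorem KK_eq (ψ : ℝ → ℝ) (z : ℝ) (y : ℝ × ℝ) :
    KK ψ z y = ∫ p, ψ p * kk z (y.1 + p * y.2) := by
  unfold KK; simp only [kk_eq]

theorem KK_two (ψ : ℝ → ℝ) (z : ℝ) (y : ℝ × ℝ) (h : y.2 ≠ 0) :
    KK ψ z y = kk z y.2 * ∫ p, ψ p * kk z (p - (-y.1 / y.2)) := by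
  rw [KK_eq, ← integral_const_mul]
  congr 1
  ext p
  have h1 : y.1 + p * y.2 = y.2 * (p - -y.1 / y.2) := by field_simp; ring
  rw [h1, kk_mul]; ring

theorem KK_one (ψ : ℝ → ℝ) (z : ℝ) (y : ℝ × ℝ) (h : y.1 ≠ 0) :
    KK ψ z y = kk z y.1 * ∫ p, ψ p * kk z (1 + p * (y.2 / y.1)) := by
  rw [KK_eq, ← integral_const_mul]
  congr 1
  ext p
  have h1 : y.1 + p * y.2 = y.1 * (1 + p * (y.2 / y.1)) := by field_simp
  rw [h1, kk_mul]; ring

theorem rpow_cmp (z a b c : ℝ) (hz0 : 0 ≤ z) (hz1 : z ≤ 1) (hb : 0 < b) (hc : 1 ≤ c)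
    (h : b ≤ c * a) : a ^ (-z) ≤ c * b ^ (-z) := by
  have hc0 : 0 < c := by linarith
  have ha : 0 < a := by
    by_contra hcon
    have : c * a ≤ 0 := mul_nonpos_of_nonneg_of_nonpos hc0.le (not_lt.mp hcon)
    linarith
  have h1 : b / c ≤ a := by rw [div_le_iff₀ hc0]; linarith
  have h2 : a ^ (-z) ≤ (b / c) ^ (-z) :=
    Real.rpow_le_rpow_of_nonpos (by positivity) h1 (by linarith)
  have h3 : (b / c) ^ (-z) = c ^ z * b ^ (-z) := by
    rw [Real.div_rpow hb.le hc0.le, Real.rpow_neg hc0.le]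
    field_simp
  have h4 : c ^ z ≤ c := by
    calc c ^ z ≤ c ^ (1 : ℝ) := Real.rpow_le_rpow_of_exponent_le hc hz1
      _ = c := Real.rpow_one c
  have h5 : 0 ≤ b ^ (-z) := Real.rpow_nonneg hb.le _
  rw [h3] at h2
  exact h2.trans (mul_le_mul_of_nonneg_right h4 h5)

end Pool.Agent.J4H93.PZ
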