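import Pool.Agent.J4H93.PZ.K

set_option autoImplicit false

open MeasureTheory Set Filter Topology Metric
open scoped Pointwise RealInnerProductSpace ENNReal

namespace Pool.Agent.J4H93.PZ

open Pool.Agent.H638.IB Pool.Agent.J4H12.PZ

theorem test_data (ψ : ℝ → ℝ) (h : Test ψ) : ∃ R L : ℝ, 1 ≤ R ∧ 0 ≤ L ∧
    (∀ p, R < |p| → ψ p = 0) ∧ (∀ x y, |ψ x - ψ y| ≤ L * |x - y|) := by
  obtain ⟨R, hR⟩ := h.supp.isBounded.subset_closedBall (0 : ℝ)
  obtain ⟨L, hL⟩ := h.smooth.lipschitzWith_of_hasCompactSupport h.supp (by simp)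
  refine ⟨max R 1, L, le_max_right _ _, L.2, ?_, ?_⟩
  · intro p hp
    by_contra hne
    have h1 : p ∈ tsupport ψ := subset_tsupport _ (Function.mem_support.mpr hne)
    have h2 := hR h1
    rw [mem_closedBall, dist_zero_right, Real.norm_eq_abs] at h2
    exact absurd (h2.trans (le_max_left _ _)) (not_le.mpr hp)
  · intro x y
    have := hL.dist_le_mul x y
    simpa [Real.dist_eq] using this

theorem pv_bound (ψ : ℝ → ℝ) (R L : ℝ) (hR : 1 ≤ R) (hL : 0 ≤ L)
    (hs : ∀ p, R < |p| → ψ p = 0) (hlip : ∀ x y, |ψ x - ψ y| ≤ L * |x - y|)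
    (z x : ℝ) (hz0 : 0 ≤ z) (hz1 : z < 1) (hx : |x| ≤ 2 * R) :
    |∫ p, ψ p * kk z (p - x)| ≤ 2 * L * (3 * R) * (6 * R) := by
  set F : ℝ → ℝ := fun u => ψ (u + x) * kk z u with hF
  have e1 : ∫ p, ψ p * kk z (p - x) = ∫ u, F u := by
    rw [← integral_sub_right_eq_self F x]
    congr 1
    ext p
    simp [hF]
  have e2 : ∫ u, F (-u) = ∫ u, F u := integral_neg_eq_self F volume
  have hnn : 0 ≤ 2 * L * (3 * R) * (6 * R) := by positivity
  by_cases hI : Integrable F
  · have hI2 : Integrable (fun u => F (-u)) := hI.comp_neg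
    have e3 : 2 * ∫ u, F u = ∫ u, (F u + F (-u)) := by
      rw [integral_add hI hI2, e2]; ring
    have hb : ∀ u, ‖F u + F (-u)‖ ≤
        (Icc (-(3 * R)) (3 * R)).indicator (fun _ => 2 * L * (3 * R)) u := by
      intro u
      have f1 : F u + F (-u) = (ψ (u + x) - ψ (-u + x)) * kk z u := by
        simp only [hF, kk_neg]; ring
      rw [f1, Real.norm_eq_abs, abs_mul]
      by_cases hu : u ∈ Icc (-(3 * R)) (3 * R)
      · rw [indicator_of_mem hu]
        rcases eq_or_ne u 0 with rfl | hu0
        · simp [kk]; positivity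
        · rw [abs_kk z u hu0]
          have hupos : 0 < |u| := abs_pos.mpr hu0
          have h1 : |ψ (u + x) - ψ (-u + x)| ≤ L * (2 * |u|) := by
            refine (hlip _ _).trans (le_of_eq ?_)
            congr 1
            rw [show u + x - (-u + x) = 2 * u by ring, abs_mul, abs_two]
          have h2 : 0 ≤ |u| ^ (-z) := Real.rpow_nonneg (abs_nonneg _) _
          have h3 : |u| * |u| ^ (-z) = |u| ^ (1 - z) := by
            rw [mul_comm, ← Real.rpow_add_one hupos.ne']; ring_nf
          have h4 : |u| ^ (1 - z) ≤ (3 * R) ^ (1 - z) :=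
            Real.rpow_le_rpow (abs_nonneg _) (abs_le.mpr hu) (by linarith)
          have h5 : (3 * R) ^ (1 - z) ≤ 3 * R := by
            calc (3 * R) ^ (1 - z) ≤ (3 * R) ^ (1 : ℝ) :=
                  Real.rpow_le_rpow_of_exponent_le (by linarith) (by linarith)
              _ = 3 * R := Real.rpow_one _
          calc |ψ (u + x) - ψ (-u + x)| * |u| ^ (-z) ≤ L * (2 * |u|) * |u| ^ (-z) :=
                mul_le_mul_of_nonneg_right h1 h2
            _ = 2 * L * (|u| * |u| ^ (-z)) := by ring
            _ ≤ 2 * L * (3 * R) := by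
                rw [h3]
                exact mul_le_mul_of_nonneg_left (h4.trans h5) (by positivity)
      · rw [indicator_of_notMem hu]
        have hu' : 3 * R < |u| := by
          by_contra hcon
          exact hu (abs_le.mp (not_lt.mp hcon))
        have g1 : ψ (u + x) = 0 := by
          apply hs
          have := abs_sub_abs_le_abs_sub u (-x)
          rw [sub_neg_eq_add, abs_neg] at this
          linarith
        have g2 : ψ (-u + x) = 0 := by
          apply hs
          have := abs_sub_abs_le_abs_sub (-u) (-x)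
          rw [sub_neg_eq_add, abs_neg, abs_neg] at this
          linarith
        rw [g1, g2]; simp
    have hint : Integrable ((Icc (-(3 * R)) (3 * R)).indicator
        (fun _ : ℝ => 2 * L * (3 * R))) := by
      rw [integrable_indicator_iff measurableSet_Icc]
      exact integrableOn_const (by simp) enorm_ne_top
    have h6 := norm_integral_le_of_norm_le hint (Eventually.of_forall hb)
    rw [integral_indicator measurableSet_Icc, setIntegral_const] at h6
    have h7 : (volume : Measure ℝ).real (Icc (-(3 * R)) (3 * R)) = 6 * R := by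
      rw [Real.volume_real_Icc_of_le (by linarith)]; ring
    rw [h7, ← e3, smul_eq_mul, Real.norm_eq_abs, abs_mul, abs_two] at h6
    rw [e1]
    nlinarith [abs_nonneg (∫ u, F u)]
  · rw [e1, integral_undef hI]
    simpa using hnn

theorem t_V3 : S_V3 := by
  intro ψ hψ
  obtain ⟨R, L, hR, hL, hs, hlip⟩ := test_data ψ hψ
  have hψi : Integrable ψ := hψ.smooth.continuous.integrable_of_hasCompactSupport hψ.supp
  refine ⟨2 * (∫ p, |ψ p|) + 2 * R * (2 * L * (3 * R) * (6 * R)), ?_⟩
  intro z hz0 hz1 y hy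
  have hn : 0 < ‖y‖ := norm_pos_iff.mpr hy
  have hni : 0 ≤ ‖y‖ ^ (-z) := Real.rpow_nonneg hn.le _
  have hI0 : 0 ≤ ∫ p, |ψ p| := integral_nonneg fun p => abs_nonneg _
  have hB0 : 0 ≤ 2 * L * (3 * R) * (6 * R) := by positivity
  have hnorm : ‖y‖ = max |y.1| |y.2| := by
    rw [Prod.norm_def]; rfl
  by_cases hc : 2 * R * |y.2| ≤ |y.1|
  · -- first case
    have h1 : ‖y‖ = |y.1| := by
      rw [hnorm]
      apply max_eq_left
      nlinarith [abs_nonneg y.2]
    have hy1 : 0 < |y.1| := by rw [← h1]; exact hn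
    have key : |KK ψ z y| ≤ ∫ p, |ψ p| * (2 * ‖y‖ ^ (-z)) := by
      rw [KK_eq, ← Real.norm_eq_abs]
      refine norm_integral_le_of_norm_le (hψi.abs.mul_const _) (Eventually.of_forall ?_)
      intro p
      rw [Real.norm_eq_abs, abs_mul]
      by_cases hp : R < |p|
      · rw [hs p hp]; simp
      · have hp' := not_lt.mp hp
        have h2 : |y.1| ≤ 2 * |y.1 + p * y.2| := by
          have t1 := abs_sub_abs_le_abs_sub y.1 (-(p * y.2))
          rw [sub_neg_eq_add, abs_neg, abs_mul] at t1
          have t2 : |p| * |y.2| ≤ R * |y.2| := mul_le_mul_of_nonneg_right hp' (abs_nonneg _)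
          linarith
        have h3 : y.1 + p * y.2 ≠ 0 := by
          intro h0
          rw [h0, abs_zero] at h2
          linarith
        rw [abs_kk z _ h3]
        have h4 := rpow_cmp z (|y.1 + p * y.2|) (|y.1|) 2 (by linarith) hz1.le hy1 (by norm_num) h2
        rw [h1]
        exact mul_le_mul_of_nonneg_left h4 (abs_nonneg _)
    rw [integral_mul_const] at key
    nlinarith [mul_nonneg (mul_nonneg (by linarith : (0:ℝ) ≤ 2 * R) hB0) hni]
  · -- second case
    have hc' := not_le.mp hc
    have hy2 : y.2 ≠ 0 := by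
      intro h0
      rw [h0, abs_zero, mul_zero] at hc'
      exact absurd hc' (not_lt.mpr (abs_nonneg _))
    have hy2p : 0 < |y.2| := abs_pos.mpr hy2
    rw [KK_two ψ z y hy2, abs_mul, abs_kk z _ hy2]
    have hx : |-y.1 / y.2| ≤ 2 * R := by
      rw [abs_div, abs_neg, div_le_iff₀ hy2p]
      exact hc'.le
    have h1 := pv_bound ψ R L hR hL hs hlip z (-y.1 / y.2) (by linarith) hz1 hx
    have h2 : ‖y‖ ≤ 2 * R * |y.2| := by
      rw [hnorm]
      refine max_le hc'.le ?_
      nlinarith [abs_nonneg y.2]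
    have h3 := rpow_cmp z (|y.2|) ‖y‖ (2 * R) (by linarith) hz1.le hn (by linarith) h2
    calc |y.2| ^ (-z) * |∫ p, ψ p * kk z (p - -y.1 / y.2)|
        ≤ (2 * R * ‖y‖ ^ (-z)) * (2 * L * (3 * R) * (6 * R)) :=
          mul_le_mul h3 h1 (abs_nonneg _) (by positivity)
      _ ≤ _ := by
          have : 0 ≤ 2 * (∫ p, |ψ p|) * ‖y‖ ^ (-z) := by positivity
          nlinarith

end Pool.Agent.J4H93.PZ
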