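import Pool.Agent.J4H93.PZ.V3

set_option autoImplicit false

open MeasureTheory Set Filter Topology Metric
open scoped Pointwise RealInnerProductSpace ENNReal

namespace Pool.Agent.J4H93.PZ

open Pool.Agent.H638.IB Pool.Agent.J4H12.PZ

theorem tendsto_kk (a : ℝ) (ha : a ≠ 0) :
    Tendsto (fun q : ℝ × ℝ => kk q.2 q.1) (𝓝 (a, 1)) (𝓝 a⁻¹) := by
  rw [← kk_one a ha]
  have h : ContinuousAt (fun q : ℝ × ℝ => kk q.2 q.1) (a, 1) := by
    unfold kk
    refine ContinuousAt.mul continuousAt_fst ?_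
    refine ContinuousAt.rpow ?_ ?_ (Or.inl ?_)
    · exact continuousAt_fst.abs
    · exact (continuousAt_snd.neg).sub continuousAt_const
    · exact abs_ne_zero.mpr ha
  exact h

theorem kk_le (z a ρ : ℝ) (hρ : 0 < ρ) (hρ1 : ρ ≤ 1) (hz0 : 0 ≤ z) (hz : z ≤ 2) (ha : ρ ≤ |a|) :
    |kk z a| ≤ ρ⁻¹ ^ 2 := by
  have h0 : a ≠ 0 := by
    intro h; rw [h, abs_zero] at ha; linarith
  rw [abs_kk z a h0]
  have h1 : |a| ^ (-z) ≤ ρ ^ (-z) := Real.rpow_le_rpow_of_nonpos hρ ha (by linarith)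
  have h2 : ρ ^ (-z) ≤ ρ ^ (-(2 : ℝ)) :=
    Real.rpow_le_rpow_of_exponent_ge hρ hρ1 (by linarith)
  have h3 : ρ ^ (-(2 : ℝ)) = ρ⁻¹ ^ 2 := by
    rw [Real.rpow_neg hρ.le, inv_pow]
    congr 1
    exact Real.rpow_natCast ρ 2
  linarith

theorem lim_point (ψ : ℝ → ℝ) (hψc : Continuous ψ) (hψi : Integrable ψ) (x₀ : ℝ)
    (hx : x₀ ∉ tsupport ψ) :
    Tendsto (fun q : ℝ × ℝ => ∫ p, ψ p * kk q.2 (p - q.1)) (𝓝 (x₀, 1))
      (𝓝 (∫ p, ψ p / (p - x₀))) := by
  obtain ⟨ρ, hρ0, hρ⟩ : ∃ ρ : ℝ, 0 < ρ ∧ ∀ p, |p - x₀| < ρ → ψ p = 0 := by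
    have h1 : (tsupport ψ)ᶜ ∈ 𝓝 x₀ := (isClosed_tsupport ψ).isOpen_compl.mem_nhds hx
    obtain ⟨ρ, h2, h3⟩ := Metric.mem_nhds_iff.mp h1
    refine ⟨ρ, h2, fun p hp => ?_⟩
    exact image_eq_zero_of_notMem_tsupport (h3 (by rwa [mem_ball, Real.dist_eq]))
  set r : ℝ := min (ρ / 2) 1 with hr
  have hr0 : 0 < r := lt_min (by linarith) one_pos
  have hr1 : r ≤ 1 := min_le_right _ _
  have hr2 : r ≤ ρ / 2 := min_le_left _ _
  refine tendsto_integral_filter_of_dominated_convergence (fun p => |ψ p| * r⁻¹ ^ 2) ?_ ?_ ?_ ?_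
  · refine Eventually.of_forall fun q => ?_
    exact (hψc.measurable.mul ((measurable_kk q.2).comp
      (measurable_id.sub_const q.1))).aestronglyMeasurable
  · have h1 : ∀ᶠ q : ℝ × ℝ in 𝓝 (x₀, 1), |q.1 - x₀| < ρ / 2 := by
      have h2 : Tendsto (fun q : ℝ × ℝ => |q.1 - x₀|) (𝓝 (x₀, 1)) (𝓝 0) := by
        have h3 : Continuous fun q : ℝ × ℝ => |q.1 - x₀| := by fun_prop
        have h4 := h3.tendsto (x₀, 1)
        simpa using h4
      exact h2.eventually_lt_const (by linarith)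
    have h2 : ∀ᶠ q : ℝ × ℝ in 𝓝 (x₀, 1), q.2 < 2 := by
      have h4 := (continuous_snd (X := ℝ) (Y := ℝ)).tendsto (x₀, 1)
      exact h4.eventually_lt_const (by norm_num)
    have h3 : ∀ᶠ q : ℝ × ℝ in 𝓝 (x₀, 1), 0 < q.2 := by
      have h4 := (continuous_snd (X := ℝ) (Y := ℝ)).tendsto (x₀, 1)
      exact h4.eventually_const_lt (by norm_num)
    filter_upwards [h1, h2, h3] with q q1 q2 q3
    refine Eventually.of_forall fun p => ?_
    rw [Real.norm_eq_abs, abs_mul]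
    by_cases hp : |p - x₀| < ρ
    · rw [hρ p hp]; simp
    · have hp' := not_lt.mp hp
      refine mul_le_mul_of_nonneg_left ?_ (abs_nonneg _)
      refine kk_le _ _ _ hr0 hr1 q3.le q2.le ?_
      have t1 := abs_sub_abs_le_abs_sub (p - x₀) (q.1 - x₀)
      rw [show p - x₀ - (q.1 - x₀) = p - q.1 by ring] at t1
      linarith
  · exact hψi.abs.mul_const _
  · refine Eventually.of_forall fun p => ?_
    by_cases hp : p = x₀
    · have h0 : ψ p = 0 := hρ p (by rw [hp]; simpa using hρ0)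
      simp [h0]
    · have h1 := tendsto_kk (p - x₀) (sub_ne_zero.mpr hp)
      have h2 : Tendsto (fun q : ℝ × ℝ => (p - q.1, q.2)) (𝓝 (x₀, 1)) (𝓝 (p - x₀, 1)) := by
        have h3 : Continuous fun q : ℝ × ℝ => (p - q.1, q.2) := by fun_prop
        exact h3.tendsto (x₀, 1)
      have h4 := (h1.comp h2).const_mul (ψ p)
      rw [div_eq_mul_inv]
      exact h4

theorem lim_one (ψ : ℝ → ℝ) (hψc : Continuous ψ) (hψi : Integrable ψ) (R : ℝ) (hR : 1 ≤ R)
    (hs : ∀ p, R < |p| → ψ p = 0) :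
    Tendsto (fun q : ℝ × ℝ => ∫ p, ψ p * kk q.2 (1 + p * q.1)) (𝓝 (0, 1))
      (𝓝 (∫ p, ψ p)) := by
  refine tendsto_integral_filter_of_dominated_convergence
    (fun p => |ψ p| * (1 / 2 : ℝ)⁻¹ ^ 2) ?_ ?_ ?_ ?_
  · refine Eventually.of_forall fun q => ?_
    exact (hψc.measurable.mul ((measurable_kk q.2).comp
      ((measurable_id.mul_const q.1).const_add 1))).aestronglyMeasurable
  · have h1 : ∀ᶠ q : ℝ × ℝ in 𝓝 (0, 1), |q.1| < 1 / (2 * R) := by
      have h2 : Tendsto (fun q : ℝ × ℝ => |q.1|) (𝓝 (0, 1)) (𝓝 0) := by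
        have h3 : Continuous fun q : ℝ × ℝ => |q.1| := by fun_prop
        have h4 := h3.tendsto (0, 1)
        simpa using h4
      exact h2.eventually_lt_const (by positivity)
    have h2 : ∀ᶠ q : ℝ × ℝ in 𝓝 ((0 : ℝ), (1 : ℝ)), q.2 < 2 := by
      have h4 := (continuous_snd (X := ℝ) (Y := ℝ)).tendsto (0, 1)
      exact h4.eventually_lt_const (by norm_num)
    have h3 : ∀ᶠ q : ℝ × ℝ in 𝓝 ((0 : ℝ), (1 : ℝ)), 0 < q.2 := by
      have h4 := (continuous_snd (X := ℝ) (Y := ℝ)).tendsto (0, 1)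
      exact h4.eventually_const_lt (by norm_num)
    filter_upwards [h1, h2, h3] with q q1 q2 q3
    refine Eventually.of_forall fun p => ?_
    rw [Real.norm_eq_abs, abs_mul]
    by_cases hp : R < |p|
    · rw [hs p hp]; simp
    · have hp' := not_lt.mp hp
      refine mul_le_mul_of_nonneg_left ?_ (abs_nonneg _)
      refine kk_le _ _ _ (by norm_num) (by norm_num) q3.le q2.le ?_
      have t1 := abs_sub_abs_le_abs_sub 1 (-(p * q.1))
      rw [sub_neg_eq_add, abs_neg, abs_mul, abs_one] at t1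
      have t2 : |p| * |q.1| ≤ R * (1 / (2 * R)) :=
        mul_le_mul hp' q1.le (abs_nonneg _) (by linarith)
      have t3 : R * (1 / (2 * R)) = 1 / 2 := by field_simp
      linarith
  · exact hψi.abs.mul_const _
  · refine Eventually.of_forall fun p => ?_
    have h1 := tendsto_kk 1 one_ne_zero
    have h2 : Tendsto (fun q : ℝ × ℝ => (1 + p * q.1, q.2)) (𝓝 (0, 1)) (𝓝 (1, 1)) := by
      have h3 : Continuous fun q : ℝ × ℝ => (1 + p * q.1, q.2) := by fun_prop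
      have h4 := h3.tendsto (0, 1)
      simpa using h4
    have h4 := (h1.comp h2).const_mul (ψ p)
    simpa using h4

theorem small_of_lim (Φ : ℝ × ℝ → ℝ) (x₀ : ℝ) (h : Tendsto Φ (𝓝 (x₀, 1)) (𝓝 0)) (ε : ℝ)
    (hε : 0 < ε) : ∃ η : ℝ, 0 < η ∧ ∀ x z : ℝ, |x - x₀| ≤ η → 1 - η < z → z < 1 →
      |Φ (x, z)| ≤ ε := by
  rw [Metric.tendsto_nhds_nhds] at h
  obtain ⟨d, hd, h1⟩ := h ε hε
  refine ⟨d / 2, by linarith, fun x z hx hz hz1 => ?_⟩
  have h2 : dist (x, z) (x₀, (1 : ℝ)) < d := by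
    rw [Prod.dist_eq, Real.dist_eq, Real.dist_eq]
    refine max_lt (by linarith) ?_
    rw [abs_lt]
    constructor <;> linarith
  have h3 := h1 h2
  rw [Real.dist_eq, sub_zero] at h3
  exact h3.le

theorem t_V4 : S_V4 := by
  intro ψ hψ h0 h1 h2 ε hε
  obtain ⟨R, L, hR, hL, hs, hlip⟩ := test_data ψ hψ
  have hψc := hψ.smooth.continuous
  have hψi : Integrable ψ := hψc.integrable_of_hasCompactSupport hψ.supp
  have l0 := lim_point ψ hψc hψi 0 hψ.zero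
  have l1 := lim_point ψ hψc hψi (-1) hψ.one
  have l2 := lim_one ψ hψc hψi R hR hs
  rw [h0] at l2
  simp only [sub_zero, sub_neg_eq_add] at l0 l1
  rw [h1] at l0
  rw [h2] at l1
  have hε2 : 0 < ε / 2 := by linarith
  obtain ⟨η₀, p0, q0⟩ := small_of_lim _ _ l0 _ hε2
  obtain ⟨η₁, p1, q1⟩ := small_of_lim _ _ l1 _ hε2
  obtain ⟨η₂, p2, q2⟩ := small_of_lim _ _ l2 _ hε2
  refine ⟨min (min η₀ η₁) (min η₂ (1 / 4)), by positivity, ?_, ?_⟩
  · exact lt_of_le_of_lt ((min_le_right _ _).trans (min_le_right _ _)) (by norm_num)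
  set η := min (min η₀ η₁) (min η₂ (1 / 4)) with hη
  have e0 : η ≤ η₀ := (min_le_left _ _).trans (min_le_left _ _)
  have e1 : η ≤ η₁ := (min_le_left _ _).trans (min_le_right _ _)
  have e2 : η ≤ η₂ := (min_le_right _ _).trans (min_le_left _ _)
  have e3 : η ≤ 1 / 4 := (min_le_right _ _).trans (min_le_right _ _)
  have ηp : 0 < η := by positivity
  intro z hz hz1 y hy hE
  have hz0 : 0 ≤ z := by linarith
  have hn : 0 < ‖y‖ := norm_pos_iff.mpr hy
  have hni : 0 ≤ ‖y‖ ^ (-z) := Real.rpow_nonneg hn.le _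
  have hnorm : ‖y‖ = max |y.1| |y.2| := by
    rw [Prod.norm_def]; rfl
  have a1 := abs_nonneg y.1
  have a2 := abs_nonneg y.2
  -- the case `y.2 ≠ 0`
  have caseB : ∀ x₀ : ℝ, y.2 ≠ 0 → ‖y‖ ≤ 2 * |y.2| →
      |∫ p, ψ p * kk z (p - (-y.1 / y.2))| ≤ ε / 2 → |KK ψ z y| ≤ ε * ‖y‖ ^ (-z) := by
    intro x₀ hy2 hb hI
    rw [KK_two ψ z y hy2, abs_mul, abs_kk z _ hy2]
    have h3 := rpow_cmp z (|y.2|) ‖y‖ 2 hz0 hz1.le hn (by norm_num) hb
    calc |y.2| ^ (-z) * |∫ p, ψ p * kk z (p - -y.1 / y.2)|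
        ≤ (2 * ‖y‖ ^ (-z)) * (ε / 2) := mul_le_mul h3 hI (abs_nonneg _) (by positivity)
      _ = ε * ‖y‖ ^ (-z) := by ring
  rcases hE with hE | hE | hE
  · -- first edge
    have hb : ‖y‖ = |y.1| := by
      rw [hnorm]; apply max_eq_left; nlinarith
    have hy1p : 0 < |y.1| := by rw [← hb]; exact hn
    have hy1 : y.1 ≠ 0 := abs_pos.mp hy1p
    rw [KK_one ψ z y hy1, abs_mul, abs_kk z _ hy1, ← hb]
    have h3 := q2 (y.2 / y.1) z (by
      rw [sub_zero, abs_div, div_le_iff₀ hy1p]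
      exact hE.trans (mul_le_mul_of_nonneg_right e2 a1)) (by linarith) hz1
    calc ‖y‖ ^ (-z) * |∫ p, ψ p * kk z (1 + p * (y.2 / y.1))| ≤ ‖y‖ ^ (-z) * (ε / 2) :=
          mul_le_mul_of_nonneg_left h3 hni
      _ ≤ ε * ‖y‖ ^ (-z) := by nlinarith
  · -- second edge
    have hy2 : y.2 ≠ 0 := by
      intro h
      rw [h, abs_zero, mul_zero] at hE
      have : |y.1| = 0 := le_antisymm hE a1
      apply hy
      exact Prod.ext (abs_eq_zero.mp this) h
    have hy2p : 0 < |y.2| := abs_pos.mpr hy2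
    refine caseB 0 hy2 ?_ ?_
    · rw [hnorm]; refine max_le ?_ ?_ <;> nlinarith
    · refine q0 (-y.1 / y.2) z ?_ (by linarith) hz1
      rw [sub_zero, abs_div, abs_neg, div_le_iff₀ hy2p]
      exact hE.trans (mul_le_mul_of_nonneg_right e0 a2)
  · -- third edge
    have hy2 : y.2 ≠ 0 := by
      intro h
      rw [h, abs_zero, mul_zero, sub_zero] at hE
      have : |y.1| = 0 := le_antisymm hE a1
      apply hy
      exact Prod.ext (abs_eq_zero.mp this) h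
    have hy2p : 0 < |y.2| := abs_pos.mpr hy2
    refine caseB (-1) hy2 ?_ ?_
    · have t1 := abs_sub_abs_le_abs_sub y.1 y.2
      rw [hnorm]; refine max_le ?_ ?_ <;> nlinarith
    · refine q1 (-y.1 / y.2) z ?_ (by linarith) hz1
      have t2 : -y.1 / y.2 - -1 = -(y.1 - y.2) / y.2 := by field_simp; ring
      rw [t2, abs_div, abs_neg, div_le_iff₀ hy2p]
      exact hE.trans (mul_le_mul_of_nonneg_right e1 a2)

end Pool.Agent.J4H93.PZ
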